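import Pool.Agent.H53Z.WB.Kill

open MeasureTheory TopologicalSpace

namespace Pool.Agent.Results.MP_2cbf68_an.ANormNotMeasurable

/-- `Ba(E, w)`: the smallest σ-algebra on the Banach space `E` making every weakly continuous real
function on `E` measurable. -/
@[instance_reducible]
def weakBaire (E : Type) [NormedAddCommGroup E] [NormedSpace ℝ E] : MeasurableSpace E :=
  ⨆ g : {g : E → ℝ // Continuous fun x : WeakSpace ℝ E => g ((toWeakSpace ℝ E).symm x)},
    MeasurableSpace.comap g.1 (borel ℝ)

/-- There is a compact Hausdorff space `K` such that the dual of `C(K)` is weak* separable while the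
supremum norm of `C(K)` is not measurable for the Baire σ-algebra of the weak topology. -/
theorem result :
    ∃ (K : Type) (_ : TopologicalSpace K) (_ : CompactSpace K) (_ : T2Space K),
      SeparableSpace (WeakDual ℝ C(K, ℝ)) ∧
      ¬ Measurable[weakBaire C(K, ℝ), borel ℝ] (fun f : C(K, ℝ) => ‖f‖) := by
  refine ⟨Pool.Agent.H53Z.WB.K, inferInstance, inferInstance, inferInstance,
    Pool.Agent.H53Z.WB.separable_dual, fun h => Pool.Agent.H53Z.WB.not_measurable_norm ?_⟩
  exact h.mono (iSup_le fun g => (Pool.Agent.H53Z.WB.edgar g.2).comap_le) le_rfl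

end Pool.Agent.Results.MP_2cbf68_an.ANormNotMeasurable
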